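import Pool.Agent.Y996.NL.Stm

/-!
Project NL (helper996): the lower bound by two disjoint boxes, and close sets (helper261).
-/

set_option autoImplicit false

namespace Pool.Agent.Y261.NL

open H974 Finset Pool.Agent.W819.EN Pool.Agent.W819.NC MeasureTheory Pool.Agent.Y996.NL

theorem nmv_fc_le {v u : Vtx} {r : ℤ} (h1 : |u.1 - v.1| ≤ r) (h2 : |u.2 - v.2| ≤ r) :
    nmv v (fc u) ≤ 2 * r := by
  unfold nmv fc
  rw [abs_le] at h1 h2
  simp only
  rcases abs_cases (u.1 + u.2 - (v.1 + v.2)) with h | h <;>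
  rcases abs_cases (u.1 - u.2 - (v.1 - v.2)) with h' | h' <;>
  · rw [h.1, h'.1]
    omega

theorem le_nmv_fc {v u : Vtx} {R : ℤ} (h : R ≤ |u.1 - v.1| ∨ R ≤ |u.2 - v.2|) :
    2 * R ≤ nmv v (fc u) := by
  unfold nmv fc
  simp only
  have h1 := le_abs_self (u.1 + u.2 - (v.1 + v.2))
  have h2 := neg_abs_le (u.1 + u.2 - (v.1 + v.2))
  have h3 := le_abs_self (u.1 - u.2 - (v.1 - v.2))
  have h4 := neg_abs_le (u.1 - u.2 - (v.1 - v.2))
  rcases h with h | h
  · rcases abs_cases (u.1 - v.1) with h' | h' <;>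
    · rw [h'.1] at h
      omega
  · rcases abs_cases (u.2 - v.2) with h' | h' <;>
    · rw [h'.1] at h
      omega

theorem NG_zero (G : Set Edg) (v : Vtx) {r R : ℕ} (h : R ≤ r) : NG G v r R = 0 := by
  have h0 : (0 : ℕ) ∈ {K | DA G v r R K} := by
    have h3 : |(v.1 + (R : ℤ), v.2).1 - v.1| ≤ (R : ℤ) := by
      simp only [add_sub_cancel_left, Nat.abs_cast, le_refl]
    have h4 : |(v.1 + (R : ℤ), v.2).2 - v.2| ≤ (R : ℤ) := by
      simp only [sub_self, abs_zero]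
      exact Int.natCast_nonneg R
    have h5 : (R : ℤ) ≤ |(v.1 + (R : ℤ), v.2).1 - v.1| := by
      simp only [add_sub_cancel_left, Nat.abs_cast, le_refl]
    have h6 := nmv_fc_le h3 h4
    have h7 := le_nmv_fc (Or.inl h5)
    have h8 : (R : ℤ) ≤ r := by exact_mod_cast h
    exact ⟨fc (v.1 + (R : ℤ), v.2), fc (v.1 + (R : ℤ), v.2), by linarith, h7, Ch.refl _ _⟩
  exact Nat.le_zero.1 (Nat.sInf_le h0)

theorem NG_le {G : Set Edg} {v : Vtx} {r R K : ℕ} (h : DA G v r R K) : NG G v r R ≤ K :=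
  Nat.sInf_le h

theorem NP_spec (G : Set Edg) {P Q : Set Vtx} (hP : P.Nonempty) (hQ : Q.Nonempty) :
    ∃ u ∈ P, ∃ w ∈ Q, Ch (Mv G) St (NP G P Q) (fc u) (fc w) := by
  have hne : {K | ∃ u ∈ P, ∃ w ∈ Q, Ch (Mv G) St K (fc u) (fc w)}.Nonempty := by
    obtain ⟨u, hu⟩ := hP
    obtain ⟨w, hw⟩ := hQ
    obtain ⟨K, hK⟩ := Pool.Agent.W38.EN.ex_chain G (fc u) (fc w)
    exact ⟨K, u, hu, w, hw, hK⟩
  exact Nat.sInf_mem hne

theorem nb_abs {a b : ℤ} (h : nb a b) (x : ℤ) : |b - x| ≤ |a - x| + 1 := by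
  have h1 : |b - a| ≤ 1 := by
    rcases h with h | h
    · rw [h]; simp
    · rw [h]; simp
  have h2 : b - x = (b - a) + (a - x) := by ring
  rw [h2]
  have := abs_add_le (b - a) (a - x)
  linarith

theorem nmv_move {G : Set Edg} {v : Vtx} {p q : ℤ × ℤ} (h : Mv G p q ∨ St p q) :
    nmv v q ≤ nmv v p + 2 := by
  unfold nmv
  rcases h with h | h
  · obtain ⟨h1, h2⟩ := Pool.Agent.W38.EN.mv_nb h
    have := nb_abs h1 (v.1 + v.2)
    have := nb_abs h2 (v.1 - v.2)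
    linarith
  · rcases h with ⟨h1, h2⟩ | ⟨h1, h2⟩
    · have := nb_abs h2 (v.1 + v.2)
      rw [h1]
      linarith
    · have := nb_abs h2 (v.1 - v.2)
      rw [h1]
      linarith

theorem nmv_tri (v w : Vtx) (c : ℤ × ℤ) : nmv w (fc v) ≤ nmv w c + nmv v c := by
  unfold nmv fc
  simp only
  have e1 : v.1 + v.2 - (w.1 + w.2) = (c.1 - (w.1 + w.2)) - (c.1 - (v.1 + v.2)) := by ring
  have e2 : v.1 - v.2 - (w.1 - w.2) = (c.2 - (w.1 - w.2)) - (c.2 - (v.1 - v.2)) := by ring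
  rw [e1, e2]
  have h1 := abs_sub (c.1 - (w.1 + w.2)) (c.1 - (v.1 + v.2))
  have h2 := abs_sub (c.2 - (w.1 - w.2)) (c.2 - (v.1 - v.2))
  linarith

theorem low : S_LOW := by
  intro G P Q v w r r' R hPne hQne hP hQ hQv hPw hvw
  obtain ⟨u, hu, y, hy, hch⟩ := NP_spec G hPne hQne
  have hsym : ∀ {K : ℕ} {a b : ℤ × ℤ}, Ch (Mv G) St K a b → Ch (Mv G) St K b a := fun h =>
    Pool.Agent.W38.EN.Ch_symm h
  by_cases h1 : R ≤ r
  · rw [NG_zero G v h1, zero_add]
    by_cases h2 : R ≤ r'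
    · rw [NG_zero G w h2]
      exact Nat.zero_le _
    · have hQ' := (hQ.resolve_left h2) y hy
      exact NG_le ⟨fc y, fc u, nmv_fc_le hQ'.1 hQ'.2, le_nmv_fc (hPw u hu), hsym hch⟩
  · have hP' := (hP.resolve_left h1) u hu
    have hPr := nmv_fc_le hP'.1 hP'.2
    by_cases h2 : R ≤ r'
    · rw [NG_zero G w h2, add_zero]
      exact NG_le ⟨fc u, fc y, hPr, le_nmv_fc (hQv y hy), hch⟩
    · have hQ' := (hQ.resolve_left h2) y hy
      have hQr := nmv_fc_le hQ'.1 hQ'.2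
      have h1' : (r : ℤ) < R := by exact_mod_cast (not_le.1 h1)
      have hA : nmv v (fc u) < 2 * (R : ℤ) := by linarith
      have hB : ¬ nmv v (fc y) < 2 * (R : ℤ) := not_lt.2 (le_nmv_fc (hQv y hy))
      obtain ⟨c', c, K1, K2, hc', hc, hm, hK, hch1, hch2⟩ :=
        Pool.Agent.W918.EN.Ch_exit (fun p : ℤ × ℤ => nmv v p < 2 * (R : ℤ)) hch hA hB
      have hch1' : Ch (Mv G) St K1 (fc u) c := Ch.map (fun x => x)
        (fun a b h' => Ch.of_rel h'.1) (fun a b h' => Ch.of_step h'.1) hch1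
      have e1 : NG G v r R ≤ K1 := NG_le ⟨fc u, c, hPr, not_lt.1 hc, hch1'⟩
      have e2 : nmv v c ≤ nmv v c' + 2 := nmv_move hm
      have e3 : 2 * (2 * (R : ℤ) + 2) ≤ nmv w (fc v) := le_nmv_fc hvw
      have e4 := nmv_tri v w c
      have hc'' : nmv v c' < 2 * (R : ℤ) := hc'
      have e5 : 2 * (R : ℤ) ≤ nmv w c := by linarith
      have e6 : NG G w r' R ≤ K2 := NG_le ⟨fc y, c, hQr, e5, hsym hch2⟩
      omega

theorem chx (G : Set Edg) (a s : ℤ) (k : ℕ) : Ch (Mv G) St k (a, s) (a + k, s) := by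
  induction k with
  | zero => simpa using Ch.refl 0 (a, s)
  | succ k ih =>
    refine Ch.step ih (Or.inl ⟨rfl, Or.inl ?_⟩)
    push_cast
    ring

theorem chy (G : Set Edg) (a s : ℤ) (k : ℕ) : Ch (Mv G) St k (a, s) (a, s + k) := by
  induction k with
  | zero => simpa using Ch.refl 0 (a, s)
  | succ k ih =>
    refine Ch.step ih (Or.inr ⟨rfl, Or.inl ?_⟩)
    push_cast
    ring

theorem chX (G : Set Edg) (a b s : ℤ) : Ch (Mv G) St (b - a).natAbs (a, s) (b, s) := by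
  rcases le_total a b with h | h
  · have h1 := chx G a s (b - a).natAbs
    have h2 : a + ((b - a).natAbs : ℤ) = b := by omega
    rwa [h2] at h1
  · have h1 := chx G b s (b - a).natAbs
    have h2 : b + ((b - a).natAbs : ℤ) = a := by omega
    rw [h2] at h1
    exact Pool.Agent.W38.EN.Ch_symm h1

theorem chY (G : Set Edg) (a s t : ℤ) : Ch (Mv G) St (t - s).natAbs (a, s) (a, t) := by
  rcases le_total s t with h | h
  · have h1 := chy G a s (t - s).natAbs
    have h2 : s + ((t - s).natAbs : ℤ) = t := by omega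
    rwa [h2] at h1
  · have h1 := chy G a t (t - s).natAbs
    have h2 : t + ((t - s).natAbs : ℤ) = s := by omega
    rw [h2] at h1
    exact Pool.Agent.W38.EN.Ch_symm h1

theorem sm : S_SM := by
  intro G P Q v w m hv hw h1 h2
  have h3 := (chX G (fc v).1 (fc w).1 (fc v).2).trans (chY G (fc w).1 (fc v).2 (fc w).2)
  have h4 : ((fc w).1 - (fc v).1).natAbs + ((fc w).2 - (fc v).2).natAbs ≤ 4 * m := by
    unfold fc
    simp only
    rw [abs_le] at h1 h2
    omega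
  exact Nat.sInf_le ⟨v, hv, w, hw, h3.mono h4⟩

end Pool.Agent.Y261.NL
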